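import Pool.Agent.Work.MP_a01b15_nt.Points

set_option autoImplicit false

namespace Pool.Agent.Results.MP_a01b15_nt.PrimitiveRoot

open Pool.Agent.Work.MP_a01b15_nt

/-- For all distinct primes `l ≡ p ≡ 1 (mod 4)`: if the Chebyshev hyperelliptic curve
`H_l : y ^ 2 = φ_l(x)` is maximal over some field with `p ^ (2 f)` elements, `f ≥ 1`, then `p` is a
primitive root modulo `l`. -/
theorem result (l p : ℕ) (hl : l.Prime) (hp : p.Prime) (hne : l ≠ p) (hl4 : l ≡ 1 [MOD 4])
    (hp4 : p ≡ 1 [MOD 4]) (h : MaximalInCharacteristic l p) : orderOf (p : ZMod l) = l - 1 :=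
  main l p hl hp hne hl4 hp4 h

end Pool.Agent.Results.MP_a01b15_nt.PrimitiveRoot
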